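import Pool.Agent.U86.Fil.Gap

/-!
# The product of the filling exponents of a stratified nilpotent Lie group

Let `G` be a stratified nilpotent Lie group of dimension `n` and homogeneous dimension `Q`. If
`FV ^ {k+1}_G ≼ r ^ (α k)` with `α k ≥ 1` for `k = 1, …, n - 1`, then `Q ≤ α 1 ⋯ α (n - 1)`.
The product of the Euclidean exponents `(k + 1) / k` is `n`, and `Q > n` if `G` is not abelian, so
every non-abelian stratified group has a super-Euclidean filling function; it is even
super-Euclidean by a definite power.

The group is given in homogeneous triangular polynomial coordinates (for instance exponential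
coordinates along a basis adapted to the stratification), see `Stratification`.

Proof. The chain maps at scale `ρ` have volume `O(ρ ^ (∏ α k))`, the partitions of unity at
scale `ρ` built from the dilations have Jacobians `O(ρ ^ (-Q))`, and the resulting top-dimensional
cochain is cohomologous, through bounded cochains, to the signed volume.
-/

namespace Pool.Agent.Results.MP_b8ac35_gt.ProductOfFillingExponents

open Pool.Agent.TH630 Pool.Agent.U86.Fil

theorem result {n : ℕ} (G : NilLaw n) (S : Stratification G)
    (B : Matrix (Fin n) (Fin n) ℝ) (hB : B.PosDef) :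
    (∀ α : ℕ → ℝ, (∀ k, 1 ≤ k → k + 1 ≤ n → 1 ≤ α k) →
      (∀ k, 1 ≤ k → k + 1 ≤ n → FVle G B k (α k)) →
        (S.homDim : ℝ) ≤ ∏ k ∈ Finset.Ico 1 n, α k) ∧
    ((∃ x y, G.mul x y ≠ G.mul y x) →
      n < S.homDim ∧ ∃ k : ℕ, 1 ≤ k ∧ k + 1 ≤ n ∧
        ¬ FVle G B k ((1 + 1 / (n : ℝ) ^ 2) * (((k : ℝ) + 1) / k)) ∧
        ¬ FVle G B k (((k : ℝ) + 1) / k)) :=
  ⟨fun α hα hFV => homDim_le_prod G S B hB α hα hFV,
    fun hG => ⟨S.lt_homDim hG, exists_gap G S B hB hG⟩⟩

end Pool.Agent.Results.MP_b8ac35_gt.ProductOfFillingExponents
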